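import Pool.Agent.H74.G.R_seed8.H789R2.AN.ExSys
import Pool.Agent.H74.G.R_seed8.H789R2.AN.Def

set_option autoImplicit false
set_option linter.unusedSectionVars false

open scoped Manifold ContDiff Topology Bundle
open Set Filter Bundle

namespace Pool.Agent.H789R2.AN

open Pool.Agent.H721R2

section conv

variable {E₀ : Type*} [NormedAddCommGroup E₀] [NormedSpace ℝ E₀] [FiniteDimensional ℝ E₀]
  {M : Type*} [MetricSpace M] [CompactSpace M] [ChartedSpace E₀ M] [IsManifold 𝓘(ℝ, E₀) 1 M]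
  {F : Type*} [NormedAddCommGroup F] [NormedSpace ℝ F]

theorem iter_bound (e : M → F) (he : ContMDiff 𝓘(ℝ, E₀) 𝓘(ℝ, F) 1 e)
    (hinj : ∀ x, Function.Injective (dm E₀ e x)) (G : M → M)
    (hG : ContMDiff 𝓘(ℝ, E₀) 𝓘(ℝ, E₀) 1 G) :
    ∃ B ≥ 1, ∀ (n : ℕ) (x : M) (v : E₀),
      ‖dm E₀ e (G^[n] x) (dg E₀ (G^[n]) x v)‖ ≤ B ^ n * ‖dm E₀ e x v‖ := by
  obtain ⟨B, hB, hbd⟩ := global_bound e he hinj G hG
  refine ⟨max 1 B, le_max_left _ _, fun n => ?_⟩
  induction n with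
  | zero =>
    intro x v
    have : dg E₀ (G^[0]) x v = v := by
      show mfderiv 𝓘(ℝ, E₀) 𝓘(ℝ, E₀) id x v = v
      rw [mfderiv_id]; rfl
    rw [this]; simp
  | succ n ih =>
    intro x v
    rw [Function.iterate_succ, dg_comp _ _ hG (iter_smooth G hG n)]
    refine (ih (G x) (dg E₀ G x v)).trans ?_
    have h1 := hbd x v
    have h2 : B * ‖dm E₀ e x v‖ ≤ max 1 B * ‖dm E₀ e x v‖ :=
      mul_le_mul_of_nonneg_right (le_max_right _ _) (norm_nonneg _)
    have h3 : 0 ≤ (max 1 B) ^ n := by positivity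
    calc (max 1 B) ^ n * ‖dm E₀ e (G x) (dg E₀ G x v)‖
        ≤ (max 1 B) ^ n * (max 1 B * ‖dm E₀ e x v‖) :=
          mul_le_mul_of_nonneg_left (h1.trans h2) h3
      _ = _ := by rw [pow_succ]; ring

/-- From the intrinsic definition to ambient rates. -/
theorem eanosov_of_isAnosov (e : M → F) (he : ContMDiff 𝓘(ℝ, E₀) 𝓘(ℝ, F) 1 e)
    (hinj : ∀ x, Function.Injective (dm E₀ e x))
    (f : Diffeomorph 𝓘(ℝ, E₀) 𝓘(ℝ, E₀) M M 1)
    (Es Eu : ∀ x : M, Submodule ℝ (TangentSpace 𝓘(ℝ, E₀) x)) (h : IsAnosov f Es Eu) :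
    ∃ C a b Ls Lu : ℝ, EAnosov (E₀ := E₀) e f.toHomeomorph Es Eu C a b Ls Lu := by
  obtain ⟨N, C, l, hN, hC, hl0, hl1, hrs, hru⟩ := h.rates
  obtain ⟨R, hR, hcmp⟩ := tnm_compare hN e he hinj
  have hsm : ContMDiff 𝓘(ℝ, E₀) 𝓘(ℝ, E₀) 1 f.toHomeomorph := f.contMDiff
  have hsm' : ContMDiff 𝓘(ℝ, E₀) 𝓘(ℝ, E₀) 1 f.toHomeomorph.symm := f.symm.contMDiff
  set φ := f.toHomeomorph with hφ
  let Es' : M → Submodule ℝ E₀ := Es
  let Eu' : M → Submodule ℝ E₀ := Eu
  have map1 : ∀ (E : M → Submodule ℝ E₀), (∀ x, (E x).map (dg E₀ φ x).toLinearMap = E (φ x)) →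
      ∀ (n : ℕ) (x : M), ∀ v ∈ E x, dg E₀ (φ^[n]) x v ∈ E (φ^[n] x) := by
    intro E hE n
    induction n with
    | zero =>
      intro x v hv
      have : dg E₀ (φ^[0]) x v = v := by
        show mfderiv 𝓘(ℝ, E₀) 𝓘(ℝ, E₀) id x v = v
        rw [mfderiv_id]; rfl
      rw [this]; exact hv
    | succ n ih =>
      intro x v hv
      rw [Function.iterate_succ, dg_comp _ _ hsm (iter_smooth φ hsm n)]
      apply ih
      rw [← hE]
      exact ⟨v, hv, rfl⟩
  have map2 : ∀ (E : M → Submodule ℝ E₀), (∀ x, (E x).map (dg E₀ φ x).toLinearMap = E (φ x)) →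
      ∀ (n : ℕ) (x : M), ∀ v ∈ E x, dg E₀ (φ.symm^[n]) x v ∈ E (φ.symm^[n] x) := by
    intro E hE n
    have base : ∀ (x : M), ∀ v ∈ E x, dg E₀ φ.symm x v ∈ E (φ.symm x) := by
      intro x v hv
      have hx : E x = E (φ (φ.symm x)) := by rw [Homeomorph.apply_symm_apply]
      rw [hx, ← hE] at hv
      obtain ⟨w, hw, hwv⟩ := hv
      have h1 := dg_inv φ φ.symm hsm hsm' (fun x => φ.symm_apply_apply x) (φ.symm x) w
      rw [Homeomorph.apply_symm_apply] at h1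
      have h2 : dg E₀ φ (φ.symm x) w = v := hwv
      rw [h2] at h1
      rw [h1]; exact hw
    induction n with
    | zero =>
      intro x v hv
      have : dg E₀ (φ.symm^[0]) x v = v := by
        show mfderiv 𝓘(ℝ, E₀) 𝓘(ℝ, E₀) id x v = v
        rw [mfderiv_id]; rfl
      rw [this]; exact hv
    | succ n ih =>
      intro x v hv
      rw [Function.iterate_succ, dg_comp _ _ hsm' (iter_smooth φ.symm hsm' n)]
      exact ih _ _ (base x v hv)
  have hEs : ∀ x, (Es' x).map (dg E₀ φ x).toLinearMap = Es' (φ x) := h.map_s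
  have hEu : ∀ x, (Eu' x).map (dg E₀ φ x).toLinearMap = Eu' (φ x) := h.map_u
  set C' := max 1 (R * R * C) with hC'
  have hC'1 : 1 ≤ C' := le_max_left _ _
  have hC'2 : R * R * C ≤ C' := le_max_right _ _
  have trans : ∀ (x y : M) (v w : E₀) (q : ℝ), 0 ≤ q → tnm N y w ≤ C * q * tnm N x v →
      ‖dm E₀ e y w‖ ≤ C' * q * ‖dm E₀ e x v‖ := by
    intro x y v w q hq hle
    have h1 := (hcmp y w).1
    have h2 := (hcmp x v).2
    calc ‖dm E₀ e y w‖ ≤ R * tnm N y w := h1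
      _ ≤ R * (C * q * tnm N x v) := mul_le_mul_of_nonneg_left hle hR.le
      _ ≤ R * (C * q * (R * ‖dm E₀ e x v‖)) := by
          apply mul_le_mul_of_nonneg_left _ hR.le
          exact mul_le_mul_of_nonneg_left h2 (by positivity)
      _ = (R * R * C) * (q * ‖dm E₀ e x v‖) := by ring
      _ ≤ C' * (q * ‖dm E₀ e x v‖) := mul_le_mul_of_nonneg_right hC'2 (by positivity)
      _ = _ := by ring
  obtain ⟨Bu, hBu, hbu⟩ := iter_bound e he hinj φ hsm
  obtain ⟨Bs, hBs, hbs⟩ := iter_bound e he hinj φ.symm hsm'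
  refine ⟨C', l, l, Bs, Bu, {
    smooth := hsm
    smooth' := hsm'
    compl := h.isCompl
    C_pos := hC'1
    a_pos := hl0
    b_pos := hl0
    a_lt := hl1
    b_lt := hl1
    Ls_le := hBs
    Lu_le := hBu
    mapS := map1 Es' hEs
    mapU := map1 Eu' hEu
    mapS' := map2 Es' hEs
    mapU' := map2 Eu' hEu
    hS := ?_
    hU' := ?_
    hS' := ?_
    hU := ?_ }⟩
  · intro n x v hv
    exact trans x _ v _ _ (by positivity) (hrs n x v hv)
  · intro n x v hv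
    exact trans x _ v _ _ (by positivity) (hru n x v hv)
  · intro n x v _
    refine (hbs n x v).trans ?_
    apply mul_le_mul_of_nonneg_right _ (norm_nonneg _)
    have : 0 ≤ Bs ^ n := by positivity
    nlinarith
  · intro n x v _
    refine (hbu n x v).trans ?_
    apply mul_le_mul_of_nonneg_right _ (norm_nonneg _)
    have : 0 ≤ Bu ^ n := by positivity
    nlinarith

theorem exists_sys {e : M → F} (hiso : ∀ x y, dist x y = ‖e x - e y‖)
    (he : ContMDiff 𝓘(ℝ, E₀) 𝓘(ℝ, F) 1 e) (hinj : ∀ x, Function.Injective (dm E₀ e x))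
    (f : Diffeomorph 𝓘(ℝ, E₀) 𝓘(ℝ, E₀) M M 1)
    (Es Eu : ∀ x : M, Submodule ℝ (TangentSpace 𝓘(ℝ, E₀) x)) (h : IsAnosov f Es Eu) :
    ∃ (n : ℕ) (S : HypSys M F), S.g = iterHomeo f.toHomeomorph n ∧ S.e = e ∧
      (∀ x, S.Vs x = Submodule.map (dm E₀ e x).toLinearMap (Es x)) ∧
      (∀ x, S.Vu x = Submodule.map (dm E₀ e x).toLinearMap (Eu x)) := by
  obtain ⟨C, a, b, Ls, Lu, hE⟩ := eanosov_of_isAnosov e he hinj f Es Eu h
  obtain ⟨K, hK, hang⟩ := hE.angle he hinj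
  have t1 : Tendsto (fun n : ℕ => K * (C * a ^ n)) atTop (𝓝 0) := by
    have := ((tendsto_pow_atTop_nhds_zero_of_lt_one hE.a_pos.le hE.a_lt).const_mul C).const_mul K
    simpa using this
  have t2 : Tendsto (fun n : ℕ => K * (C * b ^ n)) atTop (𝓝 0) := by
    have := ((tendsto_pow_atTop_nhds_zero_of_lt_one hE.b_pos.le hE.b_lt).const_mul C).const_mul K
    simpa using this
  obtain ⟨n, h1, h2⟩ := (((tendsto_order.mp t1).2 (1 / 16) (by norm_num)).and
    ((tendsto_order.mp t2).2 (1 / 16) (by norm_num))).exists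
  exact ⟨n, exists_hypSys' hiso he hinj hE K hK hang n h1.le h2.le⟩

end conv

end Pool.Agent.H789R2.AN
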